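import Pool.Agent.TH966.KO.Rates
import Pool.Agent.H46R2.K3.EQ
import Pool.Agent.X135.SW.Sparse

/-!
Self-avoiding walks on `ℤ³`: the rate of convergence of `c_{n+2}/c_n` to `μ²`, and the reduction of
the power law to sparse sequences of lengths.
-/

set_option autoImplicit false

namespace Pool.Agent.Results.MP_794e6e_pr.RatioRates

open Filter Topology

/-- the number of `n`-step self-avoiding nearest-neighbour walks on `ℤ³` from `0` -/
noncomputable def C (n : ℕ) : ℕ :=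
  Nat.card {f : Fin (n + 1) → (Fin 3 → ℤ) //
    f 0 = 0 ∧ Function.Injective f ∧
    ∀ i : Fin n, ∑ j : Fin 3, |f i.succ j - f i.castSucc j| = 1}

theorem C_eq (n : ℕ) : C n = Pool.Agent.H46R2.K3.c n := Pool.Agent.H46R2.K3.P.card_eq n

theorem C_pos (n : ℕ) : (0 : ℝ) < C n := by
  have h1 := Pool.Agent.H46R2.K3.P.mu_pow_le n
  have h2 := Pool.Agent.H46R2.K3.P.one_le_mu
  rw [C_eq]
  exact lt_of_lt_of_le (pow_pos (by linarith) n) h1

theorem C_one_le (n : ℕ) : (1 : ℝ) ≤ C n := by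
  have h1 := C_pos n
  exact_mod_cast h1

theorem C_succ (n : ℕ) : (C (n + 1) : ℝ) ≤ C n * C 1 := by
  have h := Pool.Agent.H46R2.K3.P.mu_c_add n 1
  rw [C_eq, C_eq, C_eq]
  exact_mod_cast h

/-- the connective constant -/
noncomputable def mu : ℝ := Pool.Agent.H46R2.K3.mu

theorem one_le_mu : 1 ≤ mu := Pool.Agent.H46R2.K3.P.one_le_mu

/-- both rates, eventually -/
theorem rates (ε : ℝ) (hε : 0 < ε) : ∃ K : ℝ, ∀ᶠ n : ℕ in atTop,
    -(K * (n : ℝ) ^ (-(1 / 3 : ℝ) + ε)) ≤ (C (n + 2) : ℝ) / C n - mu ^ 2 ∧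
      (C (n + 2) : ℝ) / C n - mu ^ 2 ≤ K * (n : ℝ) ^ (-(2 / 5 : ℝ) + ε) := by
  obtain ⟨K, h⟩ := TH966.KO.rates ε hε
  refine ⟨K, ?_⟩
  simp only [C_eq]
  exact h

/-- the two-sided rate -/
theorem rate (ε : ℝ) (hε : 0 < ε) : ∃ K : ℝ, 0 ≤ K ∧ ∀ᶠ n : ℕ in atTop,
    |(C (n + 2) : ℝ) / C n - mu ^ 2| ≤ K * (n : ℝ) ^ (-(1 / 3 : ℝ) + ε) := by
  obtain ⟨K, h⟩ := rates ε hε
  refine ⟨|K|, abs_nonneg K, ?_⟩
  filter_upwards [h, eventually_ge_atTop 1] with n hn hn1
  have hn1' : (1 : ℝ) ≤ n := by exact_mod_cast hn1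
  have h1 : (n : ℝ) ^ (-(2 / 5 : ℝ) + ε) ≤ (n : ℝ) ^ (-(1 / 3 : ℝ) + ε) :=
    Real.rpow_le_rpow_of_exponent_le hn1' (by linarith)
  have h2 : (0 : ℝ) ≤ (n : ℝ) ^ (-(2 / 5 : ℝ) + ε) := by positivity
  have h3 : (0 : ℝ) ≤ (n : ℝ) ^ (-(1 / 3 : ℝ) + ε) := by positivity
  have h4 := le_abs_self K
  rw [abs_le]
  constructor
  · have := mul_le_mul_of_nonneg_right h4 h3
    linarith [hn.1]
  · calc _ ≤ K * (n : ℝ) ^ (-(2 / 5 : ℝ) + ε) := hn.2
      _ ≤ |K| * (n : ℝ) ^ (-(2 / 5 : ℝ) + ε) := mul_le_mul_of_nonneg_right h4 h2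
      _ ≤ _ := mul_le_mul_of_nonneg_left h1 (abs_nonneg K)

/-- the logarithms of the normalised numbers of walks -/
noncomputable def v (r : ℕ) (g : ℝ) (k : ℕ) : ℝ :=
  Real.log ((C (2 * k + r) : ℝ) / mu ^ (2 * k + r)) - g * Real.log ((2 * k + r : ℕ) : ℝ)

theorem incr (r : ℕ) (g β : ℝ) (hβ : 0 < β) (hβ1 : β < 1 / 3) : ∃ K : ℝ, 0 ≤ K ∧
    ∀ᶠ k : ℕ in atTop, |v r g (k + 1) - v r g k| ≤ K * (k : ℝ) ^ (-β) := by
  have hmu : (0 : ℝ) < mu := by linarith [one_le_mu]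
  obtain ⟨K, hK, h⟩ := rate (1 / 3 - β) (by linarith)
  rw [show -(1 / 3 : ℝ) + (1 / 3 - β) = -β by ring] at h
  have hsub : Tendsto (fun k : ℕ => 2 * k + r) atTop atTop :=
    tendsto_atTop_mono (fun k => show k ≤ 2 * k + r by omega) tendsto_id
  have h' := hsub.eventually h
  have hlim : Tendsto (fun k : ℕ => K * (k : ℝ) ^ (-β)) atTop (𝓝 0) := by
    have := (tendsto_rpow_neg_atTop hβ).comp (tendsto_natCast_atTop_atTop (R := ℝ))
    simpa using this.const_mul K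
  have hsm : ∀ᶠ k : ℕ in atTop, K * (k : ℝ) ^ (-β) < 1 / 2 :=
    hlim.eventually_lt_const (by norm_num)
  refine ⟨2 * K + |g|, by positivity, ?_⟩
  filter_upwards [h', hsm, eventually_ge_atTop 1] with k h1 h2 h3
  have hk : (1 : ℝ) ≤ k := by exact_mod_cast h3
  have hm2 : 1 ≤ mu ^ 2 := one_le_pow₀ one_le_mu
  have e1 : ((2 * k + r : ℕ) : ℝ) ^ (-β) ≤ (k : ℝ) ^ (-β) := by
    apply Real.rpow_le_rpow_of_nonpos (by linarith) _ (by linarith)
    push_cast
    have : (0 : ℝ) ≤ r := Nat.cast_nonneg r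
    linarith
  set q : ℝ := (C (2 * k + r + 2) : ℝ) / C (2 * k + r) / mu ^ 2 with hq
  have hCk := C_pos (2 * k + r)
  have hCk2 := C_pos (2 * k + r + 2)
  have hq0 : 0 < q := by positivity
  have hq1 : |q - 1| ≤ K * (k : ℝ) ^ (-β) := by
    have : q - 1 = ((C (2 * k + r + 2) : ℝ) / C (2 * k + r) - mu ^ 2) / mu ^ 2 := by
      rw [hq]
      field_simp
    rw [this, abs_div, abs_of_pos (show 0 < mu ^ 2 by positivity)]
    refine (div_le_self (abs_nonneg _) hm2).trans ?_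
    exact h1.trans (mul_le_mul_of_nonneg_left e1 hK)
  have hlq : |Real.log q| ≤ 2 * K * (k : ℝ) ^ (-β) := by
    have hq2 : 1 / 2 < q := by
      have := (abs_le.1 hq1).1
      linarith
    have u1 : Real.log q ≤ q - 1 := Real.log_le_sub_one_of_pos hq0
    have u2 : 1 - q⁻¹ ≤ Real.log q := Real.one_sub_inv_le_log_of_pos hq0
    have u3 : -(2 * |q - 1|) ≤ 1 - q⁻¹ := by
      have e : 1 - q⁻¹ = (q - 1) / q := by field_simp
      rw [e, le_div_iff₀ hq0]
      have := neg_abs_le (q - 1)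
      have := abs_nonneg (q - 1)
      nlinarith
    rw [abs_le]
    constructor
    · linarith
    · have := le_abs_self (q - 1)
      have : 0 ≤ K * (k : ℝ) ^ (-β) := by positivity
      linarith
  have hn0 : (0 : ℝ) < ((2 * k + r : ℕ) : ℝ) := by exact_mod_cast (show 0 < 2 * k + r by omega)
  have hl : |Real.log ((2 * (k + 1) + r : ℕ) : ℝ) - Real.log ((2 * k + r : ℕ) : ℝ)| ≤
      (k : ℝ) ^ (-β) := by
    have e : ((2 * (k + 1) + r : ℕ) : ℝ) = ((2 * k + r : ℕ) : ℝ) + 2 := by push_cast; ring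
    rw [e, ← Real.log_div (by positivity) hn0.ne']
    have u1 : 0 ≤ Real.log ((((2 * k + r : ℕ) : ℝ) + 2) / ((2 * k + r : ℕ) : ℝ)) :=
      Real.log_nonneg (by rw [le_div_iff₀ hn0]; linarith)
    have u2 := Real.log_le_sub_one_of_pos
      (show 0 < (((2 * k + r : ℕ) : ℝ) + 2) / ((2 * k + r : ℕ) : ℝ) by positivity)
    have u3 : (((2 * k + r : ℕ) : ℝ) + 2) / ((2 * k + r : ℕ) : ℝ) - 1 ≤ 1 / k := by
      rw [div_sub_one hn0.ne', div_le_div_iff₀ hn0 (by linarith)]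
      push_cast
      have : (0 : ℝ) ≤ r := Nat.cast_nonneg r
      nlinarith
    have u4 : 1 / (k : ℝ) ≤ (k : ℝ) ^ (-β) := by
      rw [one_div, ← Real.rpow_neg_one]
      exact Real.rpow_le_rpow_of_exponent_le hk (by linarith)
    rw [abs_of_nonneg u1]
    linarith
  have e2 : v r g (k + 1) - v r g k = Real.log q -
      g * (Real.log ((2 * (k + 1) + r : ℕ) : ℝ) - Real.log ((2 * k + r : ℕ) : ℝ)) := by
    unfold v
    have e3 : (C (2 * (k + 1) + r) : ℝ) / mu ^ (2 * (k + 1) + r) =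
        q * ((C (2 * k + r) : ℝ) / mu ^ (2 * k + r)) := by
      rw [hq, show 2 * (k + 1) + r = 2 * k + r + 2 by ring, pow_add mu (2 * k + r) 2]
      field_simp
    rw [e3, Real.log_mul hq0.ne' (by positivity)]
    ring
  rw [e2]
  calc |Real.log q - g * (Real.log ((2 * (k + 1) + r : ℕ) : ℝ) -
      Real.log ((2 * k + r : ℕ) : ℝ))|
      ≤ |Real.log q| + |g * (Real.log ((2 * (k + 1) + r : ℕ) : ℝ) -
      Real.log ((2 * k + r : ℕ) : ℝ))| := abs_sub _ _
    _ ≤ 2 * K * (k : ℝ) ^ (-β) + |g| * (k : ℝ) ^ (-β) := by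
        rw [abs_mul]
        exact add_le_add hlq (mul_le_mul_of_nonneg_left hl (abs_nonneg g))
    _ = _ := by ring

theorem incr_up (r : ℕ) (g β : ℝ) (hβ : 0 < β) (hβ1 : β < 2 / 5) : ∃ K : ℝ, 0 ≤ K ∧
    ∀ᶠ k : ℕ in atTop, v r g (k + 1) - v r g k ≤ K * (k : ℝ) ^ (-β) := by
  have hmu : (0 : ℝ) < mu := by linarith [one_le_mu]
  obtain ⟨K, h⟩ := rates (2 / 5 - β) (by linarith)
  rw [show -(2 / 5 : ℝ) + (2 / 5 - β) = -β by ring] at h
  have hsub : Tendsto (fun k : ℕ => 2 * k + r) atTop atTop :=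
    tendsto_atTop_mono (fun k => show k ≤ 2 * k + r by omega) tendsto_id
  have h' := hsub.eventually h
  refine ⟨|K| + |g|, by positivity, ?_⟩
  filter_upwards [h', eventually_ge_atTop 1] with k h1 h3
  have hk : (1 : ℝ) ≤ k := by exact_mod_cast h3
  have hm2 : 1 ≤ mu ^ 2 := one_le_pow₀ one_le_mu
  have e1 : ((2 * k + r : ℕ) : ℝ) ^ (-β) ≤ (k : ℝ) ^ (-β) := by
    apply Real.rpow_le_rpow_of_nonpos (by linarith) _ (by linarith)
    push_cast
    have : (0 : ℝ) ≤ r := Nat.cast_nonneg r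
    linarith
  set q : ℝ := (C (2 * k + r + 2) : ℝ) / C (2 * k + r) / mu ^ 2 with hq
  have hCk := C_pos (2 * k + r)
  have hCk2 := C_pos (2 * k + r + 2)
  have hq0 : 0 < q := by positivity
  have hlq : Real.log q ≤ |K| * (k : ℝ) ^ (-β) := by
    have u1 : Real.log q ≤ q - 1 := Real.log_le_sub_one_of_pos hq0
    have u2 : q - 1 = ((C (2 * k + r + 2) : ℝ) / C (2 * k + r) - mu ^ 2) / mu ^ 2 := by
      rw [hq]
      field_simp
    have u3 : 0 ≤ ((2 * k + r : ℕ) : ℝ) ^ (-β) := by positivity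
    have u4 : (C (2 * k + r + 2) : ℝ) / C (2 * k + r) - mu ^ 2 ≤ |K| * (k : ℝ) ^ (-β) :=
      h1.2.trans ((mul_le_mul_of_nonneg_right (le_abs_self K) u3).trans
        (mul_le_mul_of_nonneg_left e1 (abs_nonneg K)))
    have u5 : 0 ≤ |K| * (k : ℝ) ^ (-β) := by positivity
    rw [u2] at u1
    refine u1.trans ((div_le_div_of_nonneg_right u4 (by positivity)).trans ?_)
    exact div_le_self u5 hm2
  have hn0 : (0 : ℝ) < ((2 * k + r : ℕ) : ℝ) := by exact_mod_cast (show 0 < 2 * k + r by omega)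
  have hl : |Real.log ((2 * (k + 1) + r : ℕ) : ℝ) - Real.log ((2 * k + r : ℕ) : ℝ)| ≤
      (k : ℝ) ^ (-β) := by
    have e : ((2 * (k + 1) + r : ℕ) : ℝ) = ((2 * k + r : ℕ) : ℝ) + 2 := by push_cast; ring
    rw [e, ← Real.log_div (by positivity) hn0.ne']
    have u1 : 0 ≤ Real.log ((((2 * k + r : ℕ) : ℝ) + 2) / ((2 * k + r : ℕ) : ℝ)) :=
      Real.log_nonneg (by rw [le_div_iff₀ hn0]; linarith)
    have u2 := Real.log_le_sub_one_of_pos
      (show 0 < (((2 * k + r : ℕ) : ℝ) + 2) / ((2 * k + r : ℕ) : ℝ) by positivity)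
    have u3 : (((2 * k + r : ℕ) : ℝ) + 2) / ((2 * k + r : ℕ) : ℝ) - 1 ≤ 1 / k := by
      rw [div_sub_one hn0.ne', div_le_div_iff₀ hn0 (by linarith)]
      push_cast
      have : (0 : ℝ) ≤ r := Nat.cast_nonneg r
      nlinarith
    have u4 : 1 / (k : ℝ) ≤ (k : ℝ) ^ (-β) := by
      rw [one_div, ← Real.rpow_neg_one]
      exact Real.rpow_le_rpow_of_exponent_le hk (by linarith)
    rw [abs_of_nonneg u1]
    linarith
  have e2 : v r g (k + 1) - v r g k = Real.log q -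
      g * (Real.log ((2 * (k + 1) + r : ℕ) : ℝ) - Real.log ((2 * k + r : ℕ) : ℝ)) := by
    unfold v
    have e3 : (C (2 * (k + 1) + r) : ℝ) / mu ^ (2 * (k + 1) + r) =
        q * ((C (2 * k + r) : ℝ) / mu ^ (2 * k + r)) := by
      rw [hq, show 2 * (k + 1) + r = 2 * k + r + 2 by ring, pow_add mu (2 * k + r) 2]
      field_simp
    rw [e3, Real.log_mul hq0.ne' (by positivity)]
    ring
  rw [e2]
  have h5 : -(g * (Real.log ((2 * (k + 1) + r : ℕ) : ℝ) - Real.log ((2 * k + r : ℕ) : ℝ))) ≤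
      |g| * (k : ℝ) ^ (-β) := by
    refine (neg_le_abs _).trans ?_
    rw [abs_mul]
    exact mul_le_mul_of_nonneg_left hl (abs_nonneg g)
  linarith

/-- odd and even lengths -/
theorem parity (g : ℝ) : ∃ B : ℝ, ∀ᶠ k : ℕ in atTop, |v 1 g k - v 0 g k| ≤ B := by
  have hmu : (0 : ℝ) < mu := by linarith [one_le_mu]
  obtain ⟨K, hK, h⟩ := incr 0 g (1 / 6) (by norm_num) (by norm_num)
  refine ⟨Real.log (C 1) + Real.log mu + 2 * |g| + K, ?_⟩
  filter_upwards [h, eventually_ge_atTop 1] with k h1 h3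
  have hk : (1 : ℝ) ≤ k := by exact_mod_cast h3
  have e1 : (k : ℝ) ^ (-(1 / 6 : ℝ)) ≤ 1 := Real.rpow_le_one_of_one_le_of_nonpos hk (by norm_num)
  have h1' : |v 0 g (k + 1) - v 0 g k| ≤ K := h1.trans (by nlinarith)
  have a1 := Real.log_le_log (C_pos _) (C_succ (2 * k))
  have a2 := Real.log_le_log (C_pos _) (C_succ (2 * k + 1))
  rw [Real.log_mul (C_pos _).ne' (C_pos _).ne'] at a1 a2
  have hl1 : 0 ≤ Real.log (C 1) := Real.log_nonneg (C_one_le 1)
  have hlm : 0 ≤ Real.log mu := Real.log_nonneg one_le_mu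
  have hg : ∀ x y : ℝ, 1 ≤ x → x ≤ y → y ≤ 2 * x → |g * Real.log y - g * Real.log x| ≤ |g| := by
    intro x y hx hxy hy
    rw [← mul_sub, abs_mul]
    have u1 : Real.log x ≤ Real.log y := Real.log_le_log (by linarith) hxy
    have u2 : Real.log y ≤ Real.log 2 + Real.log x := by
      rw [← Real.log_mul (by norm_num) (by linarith)]
      exact Real.log_le_log (by linarith) hy
    have u3 := Real.log_two_lt_d9
    have : |Real.log y - Real.log x| ≤ 1 := by
      rw [abs_of_nonneg (by linarith)]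
      linarith
    exact mul_le_of_le_one_right (abs_nonneg g) this
  have g1 := hg (2 * k) (2 * k + 1) (by linarith) (by linarith) (by linarith)
  have g2 := hg (2 * k) (2 * k + 2) (by linarith) (by linarith) (by linarith)
  unfold v at h1' ⊢
  simp only [add_zero] at h1' ⊢
  rw [show 2 * (k + 1) = 2 * k + 1 + 1 by ring] at h1'
  have l : ∀ n, Real.log ((C n : ℝ) / mu ^ n) = Real.log (C n) - n * Real.log mu := fun n => by
    rw [Real.log_div (C_pos _).ne' (by positivity), Real.log_pow]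
  rw [l, l] at h1' ⊢
  push_cast at h1' ⊢
  rw [show (2 : ℝ) * k + 1 + 1 = 2 * k + 2 by ring] at h1'
  set a := Real.log (C (2 * k))
  set b := Real.log (C (2 * k + 1))
  set c := Real.log (C (2 * k + 1 + 1))
  set x := g * Real.log (2 * (k : ℝ))
  set y := g * Real.log (2 * (k : ℝ) + 1)
  set z := g * Real.log (2 * (k : ℝ) + 2)
  set m := Real.log mu
  have hg0 := abs_nonneg g
  rw [abs_le] at h1' g1 g2 ⊢
  obtain ⟨p1, p2⟩ := h1'
  obtain ⟨p3, p4⟩ := g1
  obtain ⟨p5, p6⟩ := g2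
  constructor <;> nlinarith

/-- **Theorem.** On `ℤ³` let `μ` be the limit of `c_n^(1/n)`. (1) For every `ε > 0` there is `K` with
`- K n^(-1/3+ε) ≤ c_{n+2}/c_n - μ² ≤ K n^(-2/5+ε)` for all `n ≥ 1`.
(2) Let `s_k → ∞` be integers with `(s_{k+1} - s_k) s_k^(-2/5+ε) → 0` for some `0 < ε < 2/5`. If
`c_n / (μ^n n^(γ-1))` converges to `A > 0` along the lengths `n = 2 s_k`, it does along all even
lengths; the same for `n = 2 s_k + 1` and all odd lengths. If `log (c_n / μ^n) / log n` converges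
to `γ - 1` along the lengths `n = 2 s_k`, it does along all lengths. -/
theorem result : ∃ μ : ℝ, 0 < μ ∧
    Tendsto (fun n : ℕ => (C n : ℝ) ^ (1 / (n : ℝ))) atTop (𝓝 μ) ∧
    (∀ ε : ℝ, 0 < ε → ∃ K : ℝ, ∀ n : ℕ, 1 ≤ n →
      -(K * (n : ℝ) ^ (-(1 / 3 : ℝ) + ε)) ≤ (C (n + 2) : ℝ) / C n - μ ^ 2 ∧
      (C (n + 2) : ℝ) / C n - μ ^ 2 ≤ K * (n : ℝ) ^ (-(2 / 5 : ℝ) + ε)) ∧
    ∀ (s : ℕ → ℕ) (ε γ : ℝ), 0 < ε → ε < 2 / 5 → Tendsto s atTop atTop →
      Tendsto (fun k => ((s (k + 1) : ℝ) - s k) * (s k : ℝ) ^ (-(2 / 5 : ℝ) + ε)) atTop (𝓝 0) →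
      (∀ (r : ℕ) (A : ℝ), r ≤ 1 → 0 < A →
        Tendsto (fun k => (C (2 * s k + r) : ℝ) /
          (μ ^ (2 * s k + r) * ((2 * s k + r : ℕ) : ℝ) ^ (γ - 1))) atTop (𝓝 A) →
        Tendsto (fun k : ℕ => (C (2 * k + r) : ℝ) /
          (μ ^ (2 * k + r) * ((2 * k + r : ℕ) : ℝ) ^ (γ - 1))) atTop (𝓝 A)) ∧
      (Tendsto (fun k => Real.log ((C (2 * s k) : ℝ) / μ ^ (2 * s k)) /
          Real.log ((2 * s k : ℕ) : ℝ)) atTop (𝓝 (γ - 1)) →
        Tendsto (fun n : ℕ => Real.log ((C n : ℝ) / μ ^ n) / Real.log n) atTop (𝓝 (γ - 1))) := by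
  have hmu : (0 : ℝ) < mu := by linarith [one_le_mu]
  refine ⟨mu, hmu, ?_, ?_, ?_⟩
  · simp only [C_eq]
    exact Pool.Agent.H46R2.K3.P.tendsto_c
  · intro ε hε
    obtain ⟨K, h⟩ := rates ε hε
    have hp : ∀ a : ℝ, ∀ n : ℕ, 1 ≤ n → 0 < (n : ℝ) ^ a := fun a n hn =>
      Real.rpow_pos_of_pos (by exact_mod_cast hn) a
    obtain ⟨K1, h1⟩ := X135.SW.all_of_eventually
      (fun n => -((C (n + 2) : ℝ) / C n - mu ^ 2)) (fun n => (n : ℝ) ^ (-(1 / 3 : ℝ) + ε))
      (hp _) K (by filter_upwards [h] with n hn; linarith [hn.1])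
    obtain ⟨K2, h2⟩ := X135.SW.all_of_eventually
      (fun n => (C (n + 2) : ℝ) / C n - mu ^ 2) (fun n => (n : ℝ) ^ (-(2 / 5 : ℝ) + ε))
      (hp _) K (by filter_upwards [h] with n hn; exact hn.2)
    refine ⟨max K1 K2, fun n hn => ⟨?_, h2 _ (le_max_right _ _) n hn⟩⟩
    have := h1 _ (le_max_left K1 K2) n hn
    linarith
  · intro s ε γ hε hε1 hs hgap
    have hβ : 0 < 2 / 5 - ε := by linarith
    rw [show -(2 / 5 : ℝ) + ε = -(2 / 5 - ε) by ring] at hgap
    refine ⟨fun r A hr hA h => ?_, fun h => ?_⟩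
    · obtain ⟨K, hK, hinc⟩ := incr_up r (γ - 1) (2 / 5 - ε) hβ (by linarith)
      have hv : ∀ k : ℕ, 1 ≤ k → Real.log ((C (2 * k + r) : ℝ) /
          (mu ^ (2 * k + r) * ((2 * k + r : ℕ) : ℝ) ^ (γ - 1))) = v r (γ - 1) k := by
        intro k hk
        have hn0 : (0 : ℝ) < ((2 * k + r : ℕ) : ℝ) := by
          exact_mod_cast (show 0 < 2 * k + r by omega)
        have hC := C_pos (2 * k + r)
        unfold v
        rw [← div_div, Real.log_div (by positivity) (by positivity), Real.log_rpow hn0]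
      have h1 : Tendsto (fun k => v r (γ - 1) (s k)) atTop (𝓝 (Real.log A)) := by
        refine ((Real.continuousAt_log hA.ne').tendsto.comp h).congr' ?_
        filter_upwards [hs.eventually_ge_atTop 1] with k hk
        exact hv (s k) hk
      have h2 := X135.SW.sparse_tendsto (v r (γ - 1)) K (2 / 5 - ε) hK hβ.le hinc s hs hgap _ h1
      have h3 := (Real.continuous_exp.tendsto (Real.log A)).comp h2
      rw [Real.exp_log hA] at h3
      refine h3.congr' ?_
      filter_upwards [eventually_ge_atTop 1] with k hk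
      have hn0 : (0 : ℝ) < ((2 * k + r : ℕ) : ℝ) := by
        exact_mod_cast (show 0 < 2 * k + r by omega)
      have hC := C_pos (2 * k + r)
      rw [Function.comp_apply, ← hv k hk, Real.exp_log (by positivity)]
    · set g := γ - 1 with hg
      obtain ⟨K, hK, hinc⟩ := incr_up 0 g (2 / 5 - ε) hβ (by linarith)
      have hlog : ∀ k : ℕ, 1 ≤ k → 0 < Real.log (2 * (k : ℝ)) := fun k hk => by
        have : (1 : ℝ) ≤ k := by exact_mod_cast hk
        exact Real.log_pos (by linarith)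
      have h1 : Tendsto (fun k => v 0 g (s k) / Real.log (2 * s k)) atTop (𝓝 0) := by
        have h0 : Tendsto (fun k => Real.log ((C (2 * s k) : ℝ) / mu ^ (2 * s k)) /
          Real.log ((2 * s k : ℕ) : ℝ) - g) atTop (𝓝 (g - g)) := h.sub_const g
        rw [sub_self] at h0
        refine h0.congr' ?_
        filter_upwards [hs.eventually_ge_atTop 1] with k hk
        have := hlog (s k) hk
        unfold v
        simp only [add_zero]
        push_cast
        field_simp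
      have h2 := X135.SW.sparse_small (v 0 g) K (2 / 5 - ε) hK hβ.le (by linarith) hinc s hs hgap h1
      obtain ⟨B, hB⟩ := parity g
      have hlt : Tendsto (fun n : ℕ => Real.log (2 * (n : ℝ))) atTop atTop :=
        Real.tendsto_log_atTop.comp
          ((tendsto_natCast_atTop_atTop (R := ℝ)).const_mul_atTop (by norm_num))
      have hBz : Tendsto (fun n : ℕ => |B| / Real.log (2 * (n : ℝ))) atTop (𝓝 0) :=
        hlt.const_div_atTop |B|
      rw [Metric.tendsto_atTop']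
      intro δ hδ
      have e1 : ∀ᶠ n : ℕ in atTop, |v 0 g n / Real.log (2 * n)| < δ / 2 := by
        have := (Metric.tendsto_nhds.1 h2) (δ / 2) (by positivity)
        filter_upwards [this] with n hn
        rwa [Real.dist_eq, sub_zero] at hn
      have e2 : ∀ᶠ n : ℕ in atTop, |B| / Real.log (2 * (n : ℝ)) < δ / 2 :=
        hBz.eventually_lt_const (by positivity)
      have key : ∀ r, r ≤ 1 → ∀ᶠ k : ℕ in atTop, dist (Real.log ((C (2 * k + r) : ℝ) /
          mu ^ (2 * k + r)) / Real.log ((2 * k + r : ℕ) : ℝ)) g < δ := by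
        intro r hr
        filter_upwards [e1, e2, hB, eventually_ge_atTop 1] with k h3 h4 h5 h6
        have hl := hlog k h6
        have hk1 : (1 : ℝ) ≤ k := by exact_mod_cast h6
        have hl2 : Real.log (2 * (k : ℝ)) ≤ Real.log ((2 * k + r : ℕ) : ℝ) := by
          apply Real.log_le_log (by linarith)
          push_cast
          have : (0 : ℝ) ≤ r := Nat.cast_nonneg r
          linarith
        have hl3 : 0 < Real.log ((2 * k + r : ℕ) : ℝ) := lt_of_lt_of_le hl hl2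
        have e3 : Real.log ((C (2 * k + r) : ℝ) / mu ^ (2 * k + r)) /
            Real.log ((2 * k + r : ℕ) : ℝ) - g = v r g k / Real.log ((2 * k + r : ℕ) : ℝ) := by
          unfold v
          field_simp
        rw [Real.dist_eq, e3, abs_div, abs_of_pos hl3, div_lt_iff₀ hl3]
        rw [abs_div, abs_of_pos hl, div_lt_iff₀ hl] at h3
        rw [div_lt_iff₀ hl] at h4
        have h7 : |v r g k| ≤ |v 0 g k| + |B| := by
          have hr' : r = 0 ∨ r = 1 := by omega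
          rcases hr' with rfl | rfl
          · have := abs_nonneg B
            linarith
          · have := abs_sub_abs_le_abs_sub (v 1 g k) (v 0 g k)
            have := le_abs_self B
            linarith
        have h8 : δ * Real.log (2 * (k : ℝ)) ≤ δ * Real.log ((2 * k + r : ℕ) : ℝ) :=
          mul_le_mul_of_nonneg_left hl2 hδ.le
        linarith
      obtain ⟨N0, h0⟩ := eventually_atTop.1 (key 0 (by norm_num))
      obtain ⟨N1, h1'⟩ := eventually_atTop.1 (key 1 le_rfl)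
      refine ⟨2 * (N0 + N1) + 2, fun n hn => ?_⟩
      rcases Nat.even_or_odd' n with ⟨m, rfl | rfl⟩
      · exact h0 m (by omega)
      · exact h1' m (by omega)

end Pool.Agent.Results.MP_794e6e_pr.RatioRates
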