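import Pool.Agent.X77.SD.Law
import Pool.Agent.H46R2.K3.EQ
import Pool.Agent.X135.SW.Sparse

/-!
Self-avoiding walks on `ℤ³`: `c_{n+4}/c_{n+2} - c_{n+2}/c_n = O(n^(-2/3+ε))`, and the laws of the end
points of the `n`-step and of the `(n+2)`-step walk are at distance `O(n^(-1/2))` in mean square over
windows of more than `n^(2/3+ε)` lengths.
-/

set_option autoImplicit false

namespace Pool.Agent.Results.MP_794e6e_pr.SecondDifferences

open Filter Topology

/-- `ω` is an `n`-step self-avoiding nearest-neighbour walk on `ℤ³` from the origin. -/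
def IsSAW (n : ℕ) (ω : Fin (n + 1) → Fin 3 → ℤ) : Prop :=
  ω 0 = 0 ∧ (∀ i : Fin n, ∑ j, |ω i.succ j - ω i.castSucc j| = 1) ∧ Function.Injective ω

/-- the number `c_n` of `n`-step self-avoiding walks on `ℤ³` from the origin -/
noncomputable def C (n : ℕ) : ℕ := {ω | IsSAW n ω}.ncard

/-- the ratio `c_{n+2} / c_n` -/
noncomputable def R (n : ℕ) : ℝ := (C (n + 2) : ℝ) / C n

/-- the probability that the end point of a uniform `n`-step self-avoiding walk is in `A` -/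
noncomputable def P (n : ℕ) (A : Set (Fin 3 → ℤ)) : ℝ :=
  ({ω | IsSAW n ω ∧ ω (Fin.last n) ∈ A}.ncard : ℝ) / C n

theorem C_eq (n : ℕ) : C n = TH966.KO.c n := TH966.KO.ncard_eq n

/-- **Theorem.** On `ℤ³` let `μ` be the limit of `c_n^(1/n)`. For every `0 < ε < 1/3` there is `K`
such that
(1) `- K / n ≤ c_{n+4}/c_{n+2} - c_{n+2}/c_n ≤ K n^(-2/3+ε)` for all `n ≥ 1`;
(2) for all large `n`, all `J` and all sets `A_0, A_1, …` of points, the sum of
`(P(ω(n+2i+2) ∈ A_i) - P(ω(n+2i) ∈ A_i))²` over `i < J` is at most `K (n^(-1/3+ε) + J / n)`. -/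
theorem result : ∃ μ : ℝ, 0 < μ ∧
    Tendsto (fun n : ℕ => (C n : ℝ) ^ (1 / (n : ℝ))) atTop (𝓝 μ) ∧
    ∀ ε : ℝ, 0 < ε → ε < 1 / 3 → ∃ K : ℝ,
      (∀ n : ℕ, 1 ≤ n → -(K / n) ≤ R (n + 2) - R n ∧
        R (n + 2) - R n ≤ K * (n : ℝ) ^ (-(2 / 3 : ℝ) + ε)) ∧
      ∀ᶠ n : ℕ in atTop, ∀ (J : ℕ) (A : ℕ → Set (Fin 3 → ℤ)),
        ∑ i ∈ Finset.range J, (P (n + 2 * i + 2) (A i) - P (n + 2 * i) (A i)) ^ 2 ≤
          K * ((n : ℝ) ^ (-(1 / 3 : ℝ) + ε) + J / n) := by
  have hmu : (0 : ℝ) < TH966.KO.μ := TH966.KO.X77.mu0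
  have hR : ∀ n, R n = TH966.KO.X77.rr n := by
    intro n
    unfold R TH966.KO.X77.rr
    rw [C_eq, C_eq]
  refine ⟨TH966.KO.μ, hmu, ?_, ?_⟩
  · simp only [C_eq]
    exact Pool.Agent.H46R2.K3.P.tendsto_c
  · intro ε hε hε1
    have h := TH966.KO.X77.diff2 ε hε hε1.le
    have hp : ∀ a : ℝ, ∀ n : ℕ, 1 ≤ n → 0 < (n : ℝ) ^ a := fun a n hn =>
      Real.rpow_pos_of_pos (by exact_mod_cast hn) a
    obtain ⟨K1, h1⟩ := X135.SW.all_of_eventually
      (fun n => -(R (n + 2) - R n)) (fun n => (n : ℝ) ^ (-1 : ℝ))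
      (hp _) (10 ^ 28) (by
        filter_upwards [h] with n hn
        rw [hR, hR, Real.rpow_neg_one, ← div_eq_mul_inv]
        linarith [hn.1])
    obtain ⟨K2, h2⟩ := X135.SW.all_of_eventually
      (fun n => R (n + 2) - R n) (fun n => (n : ℝ) ^ (-(2 / 3 : ℝ) + ε))
      (hp _) (10 ^ 29) (by
        filter_upwards [h] with n hn
        rw [hR, hR]
        exact hn.2)
    obtain ⟨K3, hK3, h3⟩ := TH966.KO.X77.law_sum ε hε hε1
    refine ⟨max (max K1 K2) K3, fun n hn => ⟨?_, ?_⟩, ?_⟩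
    · have := h1 (max (max K1 K2) K3) ((le_max_left K1 K2).trans (le_max_left _ _)) n hn
      rw [Real.rpow_neg_one, ← div_eq_mul_inv] at this
      linarith
    · exact h2 (max (max K1 K2) K3) ((le_max_right K1 K2).trans (le_max_left _ _)) n hn
    · filter_upwards [h3, eventually_ge_atTop 4] with n hn h4 J A
      have e : ∀ m : ℕ, 4 ≤ m → ∀ B, P m B = TH966.KO.X77.pr m B := by
        intro m hm B
        rw [TH966.KO.X77.pr_eq hm]
        rfl
      have h5 : ∑ i ∈ Finset.range J, (P (n + 2 * i + 2) (A i) - P (n + 2 * i) (A i)) ^ 2 =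
          ∑ i ∈ Finset.range J,
            (TH966.KO.X77.pr (n + 2 * i + 2) (A i) - TH966.KO.X77.pr (n + 2 * i) (A i)) ^ 2 :=
        Finset.sum_congr rfl fun i _ => by rw [e _ (by omega), e _ (by omega)]
      rw [h5]
      refine (hn J A).trans (mul_le_mul_of_nonneg_right (le_max_right _ _) ?_)
      positivity

end Pool.Agent.Results.MP_794e6e_pr.SecondDifferences
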