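import Pool.Agent.X204.Z3
import Pool.Agent.X204.DBL

/-!
Self-avoiding walks on `ℤ³`: the asymptotic form of the number of walks has to be checked along a
sparse set of lengths only, and it follows from the asymptotic form of the probability that two walks
of the same length do not intersect, along a sparse set of lengths closed under doubling.
-/

set_option autoImplicit false

namespace Pool.Agent.Results.MP_794e6e_pr.SparseDoubling

open Filter Topology

/-- the number of `n`-step self-avoiding nearest-neighbour walks on `ℤ³` from `0` -/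
noncomputable def C (n : ℕ) : ℕ :=
  Nat.card {f : Fin (n + 1) → (Fin 3 → ℤ) //
    f 0 = 0 ∧ Function.Injective f ∧
    ∀ i : Fin n, ∑ j : Fin 3, |f i.succ j - f i.castSucc j| = 1}

/-- the probability `c_{2n} / c_n²` that two independent uniform `n`-step self-avoiding walks on `ℤ³`
from the origin meet at the origin only -/
noncomputable def P (n : ℕ) : ℝ := (C (2 * n) : ℝ) / (C n : ℝ) ^ 2

/-- the gaps of the even elements and the gaps of the odd elements of the set `S` of lengths are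
`o(√n)` -/
def ParityGaps (S : Set ℕ) : Prop :=
  ∀ δ : ℝ, 0 < δ → ∀ᶠ n : ℕ in atTop, ∃ m ∈ S, m % 2 = n % 2 ∧ n ≤ m ∧
    (m : ℝ) ≤ n + δ * Real.sqrt n

/-- the gaps of the set `S` of lengths are `o(√(n log n))` -/
def LogGaps (S : Set ℕ) : Prop :=
  ∀ δ : ℝ, 0 < δ → ∀ᶠ n : ℕ in atTop, ∃ m ∈ S, n ≤ m ∧
    (m : ℝ) ≤ n + δ * Real.sqrt (n * Real.log n)

/-- `c_n / (μ^n n^(γ-1))` -/
noncomputable def q (μ γ : ℝ) (n : ℕ) : ℝ := (C n : ℝ) / (μ ^ n * (n : ℝ) ^ (γ - 1))

/-- **Theorem.** On `ℤ³` let `μ` be the limit of `c_n^(1/n)`, and let `γ` be real and `S` a set of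
lengths.
(1) If the even and the odd elements of `S` have gaps `o(√n)` and `c_n / (μ^n n^(γ-1))` converges to
`A > 0` along `S`, then along all lengths.
(2) If `2 n ∈ S` for `n ∈ S`, then for `L > 0` the following are equivalent: the non-intersection
probability `P n = c_{2n} / c_n²` satisfies `P n n^(γ-1) → L` along `S`; and
`c_n / (μ^n n^(γ-1)) → 2^(γ-1) / L` along `S`. If moreover `S` is as in (1), then both are equivalent
to `c_n / (μ^n n^(γ-1)) → 2^(γ-1) / L` along all lengths.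
(3) If `2 n ∈ S` for `n ∈ S` and `log (P n) / log n → -(γ-1)` along `S`, then
`log (c_n / μ^n) / log n → γ-1` along `S`; and along all lengths if the gaps of `S` are
`o(√(n log n))`. -/
theorem result : ∃ μ : ℝ, 0 < μ ∧
    Tendsto (fun n : ℕ => (C n : ℝ) ^ (1 / (n : ℝ))) atTop (𝓝 μ) ∧
    ∀ (γ : ℝ) (S : Set ℕ),
      (∀ A : ℝ, 0 < A → ParityGaps S → Tendsto (q μ γ) (atTop ⊓ 𝓟 S) (𝓝 A) →
        Tendsto (q μ γ) atTop (𝓝 A)) ∧
      ((∀ n ∈ S, 2 * n ∈ S) →
        (∀ L : ℝ, 0 < L →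
          (Tendsto (fun n : ℕ => P n * (n : ℝ) ^ (γ - 1)) (atTop ⊓ 𝓟 S) (𝓝 L) ↔
            Tendsto (q μ γ) (atTop ⊓ 𝓟 S) (𝓝 (2 ^ (γ - 1) / L))) ∧
          (ParityGaps S →
            (Tendsto (fun n : ℕ => P n * (n : ℝ) ^ (γ - 1)) (atTop ⊓ 𝓟 S) (𝓝 L) ↔
              Tendsto (q μ γ) atTop (𝓝 (2 ^ (γ - 1) / L))))) ∧
        (Tendsto (fun n : ℕ => Real.log (P n) / Real.log n) (atTop ⊓ 𝓟 S) (𝓝 (-(γ - 1))) →
          Tendsto (fun n : ℕ => Real.log ((C n : ℝ) / μ ^ n) / Real.log n) (atTop ⊓ 𝓟 S)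
            (𝓝 (γ - 1)) ∧
          (LogGaps S →
            Tendsto (fun n : ℕ => Real.log ((C n : ℝ) / μ ^ n) / Real.log n) atTop
              (𝓝 (γ - 1))))) := by
  have W : Pool.Agent.Y943.SL.Wk (fun n => (C n : ℝ)) Pool.Agent.X204.Z3.mu :=
    Pool.Agent.X204.Z3.wk3
  refine ⟨Pool.Agent.X204.Z3.mu, Pool.Agent.X204.Z3.mu_pos, Pool.Agent.X204.Z3.tendsto_root,
    fun γ S => ?_⟩
  have hform : ∀ A : ℝ, 0 < A → ParityGaps S →
      Tendsto (q Pool.Agent.X204.Z3.mu γ) (atTop ⊓ 𝓟 S) (𝓝 A) →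
      Tendsto (q Pool.Agent.X204.Z3.mu γ) atTop (𝓝 A) :=
    fun A hA hS h => W.form S hS A (γ - 1) hA h
  refine ⟨hform, fun hd => ⟨fun L hL => ?_, fun h => ?_⟩⟩
  · have hA : 0 < 2 ^ (γ - 1) / L := div_pos (Real.rpow_pos_of_pos (by norm_num) _) hL
    have hiff : Tendsto (fun n : ℕ => P n * (n : ℝ) ^ (γ - 1)) (atTop ⊓ 𝓟 S) (𝓝 L) ↔
        Tendsto (q Pool.Agent.X204.Z3.mu γ) (atTop ⊓ 𝓟 S) (𝓝 (2 ^ (γ - 1) / L)) := by
      constructor
      · intro h
        exact Pool.Agent.X204.DBL.double W.hμ (fun n _ => W.cpos n) W.sub S hd (γ - 1) L hL h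
      · intro h
        have h1 := Pool.Agent.X204.DBL.double_conv W.hμ S hd (γ - 1) _ hA h
        have e : (2 : ℝ) ^ (γ - 1) / (2 ^ (γ - 1) / L) = L := by
          have := (Real.rpow_pos_of_pos (show (0 : ℝ) < 2 by norm_num) (γ - 1)).ne'
          have := hL.ne'
          field_simp
        rw [e] at h1
        exact h1
    refine ⟨hiff, fun hS => hiff.trans ⟨fun h => hform _ hA hS h, fun h => h.mono_left inf_le_left⟩⟩
  · have h1 := W.along S hd (γ - 1) h
    exact ⟨h1, fun hG => W.expo S hG (γ - 1) h1⟩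

end Pool.Agent.Results.MP_794e6e_pr.SparseDoubling
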