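import Pool.Agent.X204.Z3G

/-!
Two self-avoiding walks of different lengths on `ℤ³`: the number of walks is the reciprocal of the
probability to avoid a longer walk.
-/

set_option autoImplicit false

namespace Pool.Agent.Results.MP_794e6e_pr.UnequalLengths

open Filter Topology

/-- the number of `n`-step self-avoiding nearest-neighbour walks on `ℤ³` from `0` -/
noncomputable def C (n : ℕ) : ℕ :=
  Nat.card {f : Fin (n + 1) → (Fin 3 → ℤ) //
    f 0 = 0 ∧ Function.Injective f ∧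
    ∀ i : Fin n, ∑ j : Fin 3, |f i.succ j - f i.castSucc j| = 1}

/-- the probability `c_{N+n} / (c_N c_n)` that independent uniform self-avoiding walks on `ℤ³` with
`N` and with `n` steps from the origin meet at the origin only -/
noncomputable def P (N n : ℕ) : ℝ := (C (N + n) : ℝ) / ((C N : ℝ) * C n)

/-- the geometric mean of `P N n` over the lengths `N` in `[M, 2M)` -/
noncomputable def G (M n : ℕ) : ℝ := (∏ N ∈ Finset.Ico M (2 * M), P N n) ^ ((1 : ℝ) / M)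

/-- **Theorem.** On `ℤ³` let `μ` be the limit of `c_n^(1/n)`, `P N n` the probability that independent
self-avoiding walks with `N` and with `n` steps meet at the origin only, and `G M n` the geometric mean
of the numbers `P N n` with `M ≤ N < 2 M`. For every `ε > 0` there is `K` such that:
(1) `|log (G M n) + log (c_n / μ^n)| ≤ K n M^(-2/3+ε)` for all `1 ≤ n ≤ M`;
(2) for all large `M` and even `n` with `1 ≤ n ≤ M` there is `N` in `[M, 2 M)` with
`|log (P N n) + log (c_n / μ^n)| ≤ K (n M^(-2/3+ε) + M^(-1/3+ε))`;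
(3) `|log (P N n) + log (c_n / μ^n)| ≤ K n N^(-1/3+ε)` for all large `N` and all even `n`.
(4) Let `L n ≥ n` be lengths with `n (L n)^(-2/3+ε) → 0` for some `ε > 0`. Then for real `γ` and
`A > 0`: `c_n / (μ^n n^(γ-1)) → A` if and only if `G (L n) n * n^(γ-1) → 1 / A`. -/
theorem result : ∃ μ : ℝ, 0 < μ ∧
    Tendsto (fun n : ℕ => (C n : ℝ) ^ (1 / (n : ℝ))) atTop (𝓝 μ) ∧
    (∀ ε : ℝ, 0 < ε → ∃ K : ℝ,
      (∀ M n : ℕ, 1 ≤ n → n ≤ M →
        |Real.log (G M n) + Real.log ((C n : ℝ) / μ ^ n)| ≤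
          K * (n * (M : ℝ) ^ (-(2 / 3 : ℝ) + ε))) ∧
      (∀ᶠ M : ℕ in atTop, ∀ n : ℕ, 1 ≤ n → n ≤ M → n % 2 = 0 → ∃ N : ℕ, M ≤ N ∧ N < 2 * M ∧
        |Real.log (P N n) + Real.log ((C n : ℝ) / μ ^ n)| ≤
          K * (n * (M : ℝ) ^ (-(2 / 3 : ℝ) + ε) + (M : ℝ) ^ (-(1 / 3 : ℝ) + ε))) ∧
      (∀ᶠ N : ℕ in atTop, ∀ n : ℕ, n % 2 = 0 →
        |Real.log (P N n) + Real.log ((C n : ℝ) / μ ^ n)| ≤
          K * (n * (N : ℝ) ^ (-(1 / 3 : ℝ) + ε)))) ∧
    ∀ (L : ℕ → ℕ) (ε : ℝ), 0 < ε → (∀ᶠ n : ℕ in atTop, n ≤ L n) →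
      Tendsto (fun n : ℕ => (n : ℝ) * (L n : ℝ) ^ (-(2 / 3 : ℝ) + ε)) atTop (𝓝 0) →
      ∀ γ A : ℝ, 0 < A →
        (Tendsto (fun n : ℕ => (C n : ℝ) / (μ ^ n * (n : ℝ) ^ (γ - 1))) atTop (𝓝 A) ↔
          Tendsto (fun n : ℕ => G (L n) n * (n : ℝ) ^ (γ - 1)) atTop (𝓝 (1 / A))) := by
  refine ⟨Pool.Agent.X204.Z3.mu, Pool.Agent.X204.Z3.mu_pos, Pool.Agent.X204.Z3.tendsto_root,
    fun ε hε => ?_, fun L ε hε hL hs γ A hA => ?_⟩
  · obtain ⟨K1, hK1, h1⟩ := Pool.Agent.X204.Z3G.mean3 ε hε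
    obtain ⟨K2, hK2, h2⟩ := Pool.Agent.X204.Z3G.point3 ε hε
    obtain ⟨K3, hK3, h3⟩ := Pool.Agent.X204.Z3G.long3 ε hε
    refine ⟨K1 + K2 + K3, fun M n hn hnM => ?_, ?_, ?_⟩
    · refine (h1 M n hn hnM).trans (mul_le_mul_of_nonneg_right (by linarith) (by positivity))
    · filter_upwards [h2] with M hM n a1 a2 a3
      obtain ⟨N, b1, b2, b3⟩ := hM n a1 a2 a3
      exact ⟨N, b1, b2, b3.trans (mul_le_mul_of_nonneg_right (by linarith) (by positivity))⟩
    · filter_upwards [h3] with N hN n a1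
      exact (hN n a1).trans (mul_le_mul_of_nonneg_right (by linarith) (by positivity))
  · have hm : 0 < min ε (1 / 3) := lt_min hε (by norm_num)
    obtain ⟨K', hK', H⟩ := Pool.Agent.X204.Z3G.gr3 hm (min_le_right _ _)
    have hs' : Tendsto (fun n : ℕ => (n : ℝ) / L n *
        (K' * ((L n : ℝ) + 1) ^ (1 / 3 + min ε (1 / 3)))) atTop (𝓝 0) := by
      have h1 := hs.const_mul (2 * K')
      rw [mul_zero] at h1
      refine squeeze_zero' (Eventually.of_forall fun n => by positivity) ?_ h1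
      filter_upwards [hL, eventually_ge_atTop 1] with n h2 h3
      have h4 := Pool.Agent.X204.Z3G.conv hK' hm (min_le_right _ _) (L n) (by omega)
      have h5 := Pool.Agent.X204.Z3G.expo_le
        (show -(2 / 3 : ℝ) + min ε (1 / 3) ≤ -(2 / 3 : ℝ) + ε by
          linarith [min_le_left ε (1 / 3)]) (L n) (by omega)
      have hn0 : (0 : ℝ) ≤ n := Nat.cast_nonneg n
      calc (n : ℝ) / L n * (K' * ((L n : ℝ) + 1) ^ (1 / 3 + min ε (1 / 3)))
          = n * (K' * ((L n : ℝ) + 1) ^ (1 / 3 + min ε (1 / 3)) / L n) := by ring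
        _ ≤ n * (2 * K' * (L n : ℝ) ^ (-(2 / 3 : ℝ) + min ε (1 / 3))) :=
            mul_le_mul_of_nonneg_left h4 hn0
        _ ≤ n * (2 * K' * (L n : ℝ) ^ (-(2 / 3 : ℝ) + ε)) := by gcongr
        _ = _ := by ring
    exact (Pool.Agent.X204.AVF.strong_iff Pool.Agent.X204.Z3.wk3 H L hL hs' (γ - 1) A hA).symm

end Pool.Agent.Results.MP_794e6e_pr.UnequalLengths
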